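import Pool.Agent.Work.MP_ba58b9_gt.Assembly

/-!
# MP_ba58b9_gt: a hereditarily countably paracompact non-normal manifold from the diamond principle

Assuming Jensen's diamond principle there is a connected separable 3-manifold all of whose subspaces
are countably paracompact and which is not normal. The question Q1 of the problem asks whether every
hereditarily countably paracompact manifold is normal, and the problem file says that a consistent
answer in either direction is also of interest.

The manifold is built by a recursion of length `ω₁` from `ℝ³`, all stages being spaces of filters on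
`ℝ³`; see `Pool/Agent/Work/MP_ba58b9_gt/BLUEPRINT.md`.
-/

set_option autoImplicit false

namespace Pool.Agent.Results.MP_ba58b9_gt.DiamondCounterexample

open Set Ordinal

/-- `C` is a closed unbounded subset of `ω₁`. -/
def IsClub (C : Set Ordinal.{0}) : Prop :=
  (∀ α ∈ C, α < ω₁) ∧ (∀ β < ω₁, ∃ γ ∈ C, β < γ) ∧
    ∀ δ < ω₁, δ ≠ 0 → (∀ β < δ, ∃ γ ∈ C, β < γ ∧ γ < δ) → δ ∈ C

/-- Jensen's diamond principle: there is a sequence `D α`, `α < ω₁`, such that for every subset `X`
of `ω₁` the set of `α` with `X ∩ α = D α ∩ α` is stationary, that is, meets every closed unbounded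
subset of `ω₁`. -/
def Diamond : Prop :=
  ∃ D : Ordinal.{0} → Set Ordinal.{0}, ∀ X C : Set Ordinal.{0}, IsClub C →
    ∃ α ∈ C, X ∩ Iio α = D α ∩ Iio α

/-- Diamond implies that there is a connected separable Hausdorff space locally homeomorphic to
`ℝ³`, in which every subspace is countably paracompact, and which is not normal. -/
theorem result (h : Diamond) : ∃ (X : Type) (_ : TopologicalSpace X),
    T2Space X ∧ ConnectedSpace X ∧ TopologicalSpace.SeparableSpace X ∧
    (∀ x : X, ∃ U : Set X, IsOpen U ∧ x ∈ U ∧ Nonempty (U ≃ₜ EuclideanSpace ℝ (Fin 3))) ∧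
    (∀ S : Set X, ∀ u : ℕ → Set S, (∀ k, IsOpen (u k)) → (⋃ k, u k) = Set.univ →
      ∃ (ι : Type) (v : ι → Set S), (∀ i, IsOpen (v i)) ∧ (⋃ i, v i) = Set.univ ∧
        LocallyFinite v ∧ ∀ i, ∃ k, v i ⊆ u k) ∧
    ¬ NormalSpace X :=
  Pool.Agent.Work.MP_ba58b9_gt.counterexample h

end Pool.Agent.Results.MP_ba58b9_gt.DiamondCounterexample
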