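import Pool.Agent.Work.MP_ba58b9_gt.Ma.Main

/-!
# MP_ba58b9_gt: hereditarily countably paracompact manifolds under Martin's axiom

Under Martin's axiom for `ℵ₁` dense sets every connected separable hereditarily countably
paracompact manifold of dimension at least two is metrizable, hence hereditarily normal. The same
holds without separability if every closed subset of the manifold whose countable subsets are
relatively compact is compact. Together with the counterexample from diamond this shows that the
question of the problem for separable manifolds of dimension at least two cannot be decided in ZFC.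
-/

set_option autoImplicit false

namespace Pool.Agent.Results.MP_ba58b9_gt.MartinMetrizable

/-- Martin's axiom for `ℵ₁` dense sets: for every partial order (preorder) `P` in which every set of
pairwise incompatible elements is countable and every family of at most `ℵ₁` dense subsets of `P`
there is a filter of `P` which meets all members of the family. -/
def MartinAxiom : Prop :=
  ∀ (P : Type) [Preorder P] [Nonempty P],
    (∀ A : Set P, A.Pairwise (fun p q => ¬ ∃ r, r ≤ p ∧ r ≤ q) → A.Countable) →
    ∀ 𝒟 : Set (Set P), Cardinal.mk 𝒟 ≤ Cardinal.aleph 1 → (∀ D ∈ 𝒟, ∀ p, ∃ q ∈ D, q ≤ p) →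
    ∃ F : Set P, F.Nonempty ∧ (∀ p ∈ F, ∀ q, p ≤ q → q ∈ F) ∧
      (∀ p ∈ F, ∀ q ∈ F, ∃ r ∈ F, r ≤ p ∧ r ≤ q) ∧ ∀ D ∈ 𝒟, (F ∩ D).Nonempty

/-- Assume Martin's axiom for `ℵ₁` dense sets. A connected Hausdorff space which is locally
homeomorphic to `ℝⁿ`, `n ≥ 2`, all of whose subspaces are countably paracompact, and which is
separable or has the property that every closed subset whose countable subsets have compact closure
is compact, is metrizable and second countable. -/
theorem result (hMA : MartinAxiom) (n : ℕ) (hn : 2 ≤ n) (X : Type) [TopologicalSpace X]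
    (hT : T2Space X) (hc : ConnectedSpace X)
    (hloc : ∀ x : X, ∃ U : Set X, IsOpen U ∧ x ∈ U ∧ Nonempty (U ≃ₜ EuclideanSpace ℝ (Fin n)))
    (hcp : ∀ S : Set X, ∀ u : ℕ → Set S, (∀ k, IsOpen (u k)) → (⋃ k, u k) = Set.univ →
      ∃ (ι : Type) (v : ι → Set S), (∀ i, IsOpen (v i)) ∧ (⋃ i, v i) = Set.univ ∧
        LocallyFinite v ∧ ∀ i, ∃ k, v i ⊆ u k)
    (h : TopologicalSpace.SeparableSpace X ∨ ∀ A : Set X, IsClosed A →
      (∀ C ⊆ A, C.Countable → IsCompact (closure C)) → IsCompact A) :
    SecondCountableTopology X ∧ TopologicalSpace.MetrizableSpace X :=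
  Pool.Agent.Work.MP_ba58b9_gt.metrizable_of_ma hMA n hn X hloc hc hcp h

end Pool.Agent.Results.MP_ba58b9_gt.MartinMetrizable
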