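import Pool.Agent.Work.MP_ba58b9_gt.ZAssembly

/-!
# MP_ba58b9_gt: hereditarily countably paracompact Moore manifolds are metrizable

In ZFC, every connected hereditarily countably paracompact manifold of dimension at least two which
is quasi-developable (in particular: which is a Moore space) is metrizable, hence hereditarily
normal. This answers the question of the problem positively for Moore manifolds.
-/

set_option autoImplicit false

namespace Pool.Agent.Results.MP_ba58b9_gt.MooreMetrizable

/-- `G` is a quasi-development of `X`: a sequence of families of open sets such that for every open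
set `O` and every point `x` of `O` there is `k` such that `x` belongs to some member of `G k`, and
all members of `G k` which contain `x` are contained in `O`. A development is a quasi-development all
of whose families are covers, and a Moore space is a regular space with a development. -/
def IsQuasiDevelopment {X : Type} [TopologicalSpace X] (G : ℕ → Set (Set X)) : Prop :=
  (∀ k, ∀ g ∈ G k, IsOpen g) ∧ ∀ (x : X) (O : Set X), IsOpen O → x ∈ O →
    ∃ k, (∃ g ∈ G k, x ∈ g) ∧ ∀ g ∈ G k, x ∈ g → g ⊆ O

/-- A connected Hausdorff space which is locally homeomorphic to `ℝⁿ`, `n ≥ 2`, all of whose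
subspaces are countably paracompact, and which has a quasi-development, is metrizable and second
countable. -/
theorem result (n : ℕ) (hn : 2 ≤ n) (X : Type) [TopologicalSpace X] (hT : T2Space X)
    (hc : ConnectedSpace X)
    (hloc : ∀ x : X, ∃ U : Set X, IsOpen U ∧ x ∈ U ∧ Nonempty (U ≃ₜ EuclideanSpace ℝ (Fin n)))
    (hcp : ∀ S : Set X, ∀ u : ℕ → Set S, (∀ k, IsOpen (u k)) → (⋃ k, u k) = Set.univ →
      ∃ (ι : Type) (v : ι → Set S), (∀ i, IsOpen (v i)) ∧ (⋃ i, v i) = Set.univ ∧
        LocallyFinite v ∧ ∀ i, ∃ k, v i ⊆ u k)
    (hG : ∃ G : ℕ → Set (Set X), IsQuasiDevelopment G) :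
    SecondCountableTopology X ∧ TopologicalSpace.MetrizableSpace X := by
  obtain ⟨G, hG⟩ := hG
  exact Pool.Agent.Work.MP_ba58b9_gt.metrizable_of_qdev n hn X hloc hc hcp G hG

end Pool.Agent.Results.MP_ba58b9_gt.MooreMetrizable
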