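import Pool.Agent.Work.MP_ba58b9_gt.Pf.Final

/-!
# MP_ba58b9_gt: hereditarily countably paracompact manifolds under the proper forcing axiom

Under the proper forcing axiom every connected hereditarily countably paracompact manifold of
dimension at least two is metrizable and second countable, and every connected hereditarily
countably paracompact manifold, of whatever dimension, is normal. So the affirmative answer to the
question of the problem is consistent (relative to the consistency of the proper forcing axiom);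
with the counterexample from diamond the question cannot be decided in ZFC.
-/

set_option autoImplicit false

namespace Pool.Agent.Results.MP_ba58b9_gt.ProperForcingMetrizable

/-- A closed unbounded family of countable subsets of `Z`: all members are countable, every
countable subset of `Z` is contained in a member, and the union of an increasing sequence of
members is a member. -/
def IsClubCountable {Z : Type} (𝒞 : Set (Set Z)) : Prop :=
  (∀ M ∈ 𝒞, M.Countable) ∧ (∀ A : Set Z, A.Countable → ∃ M ∈ 𝒞, A ⊆ M) ∧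
    ∀ M : ℕ → Set Z, (∀ k, M k ∈ 𝒞) → Monotone M → (⋃ k, M k) ∈ 𝒞

/-- The partial order (preorder) `P` is proper: there is a closed unbounded family of countable
sets `M` of elements and of subsets of `P` such that below every element `p` of `P` which lies in
`M` there is an `(M, P)`-generic element `q`; this means that for every dense set `D` which lies
in `M` the elements of `D` which lie in `M` form a set which is predense below `q`. -/
def IsProper (P : Type) [Preorder P] : Prop :=
  ∃ 𝒞 : Set (Set (P ⊕ Set P)), IsClubCountable 𝒞 ∧ ∀ M ∈ 𝒞, ∀ p : P, Sum.inl p ∈ M →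
    ∃ q, q ≤ p ∧ ∀ D : Set P, Sum.inr D ∈ M → (∀ x, ∃ y ∈ D, y ≤ x) →
      ∀ r, r ≤ q → ∃ d ∈ D, Sum.inl d ∈ M ∧ ∃ s, s ≤ r ∧ s ≤ d

/-- The proper forcing axiom: for every proper partial order `P` and every family of at most `ℵ₁`
dense subsets of `P` there is a filter of `P` which meets all members of the family. -/
def ProperForcingAxiom : Prop :=
  ∀ (P : Type) [Preorder P] [Nonempty P], IsProper P →
    ∀ 𝒟 : Set (Set P), Cardinal.mk 𝒟 ≤ Cardinal.aleph 1 → (∀ D ∈ 𝒟, ∀ p, ∃ q ∈ D, q ≤ p) →
    ∃ F : Set P, F.Nonempty ∧ (∀ p ∈ F, ∀ q, p ≤ q → q ∈ F) ∧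
      (∀ p ∈ F, ∀ q ∈ F, ∃ r ∈ F, r ≤ p ∧ r ≤ q) ∧ ∀ D ∈ 𝒟, (F ∩ D).Nonempty

/-- Assume the proper forcing axiom. A connected Hausdorff space which is locally homeomorphic to
`ℝⁿ` and all of whose subspaces are countably paracompact is metrizable and second countable if
`n ≥ 2`, and it is normal for every `n`. -/
theorem result (hPFA : ProperForcingAxiom) :
    (∀ n : ℕ, 2 ≤ n → ∀ (X : Type) [TopologicalSpace X],
      T2Space X → ConnectedSpace X →
      (∀ x : X, ∃ U : Set X, IsOpen U ∧ x ∈ U ∧ Nonempty (U ≃ₜ EuclideanSpace ℝ (Fin n))) →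
      (∀ S : Set X, ∀ u : ℕ → Set S, (∀ k, IsOpen (u k)) → (⋃ k, u k) = Set.univ →
        ∃ (ι : Type) (v : ι → Set S), (∀ i, IsOpen (v i)) ∧ (⋃ i, v i) = Set.univ ∧
          LocallyFinite v ∧ ∀ i, ∃ k, v i ⊆ u k) →
      SecondCountableTopology X ∧ TopologicalSpace.MetrizableSpace X) ∧
    (∀ (X : Type) [TopologicalSpace X],
      T2Space X → ConnectedSpace X →
      (∃ n : ℕ, ∀ x : X, ∃ U : Set X, IsOpen U ∧ x ∈ U ∧
          Nonempty (U ≃ₜ EuclideanSpace ℝ (Fin n))) →
      (∀ S : Set X, ∀ u : ℕ → Set S, (∀ k, IsOpen (u k)) →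
          (⋃ k, u k) = Set.univ →
          ∃ (ι : Type) (v : ι → Set S), (∀ i, IsOpen (v i)) ∧
            (⋃ i, v i) = Set.univ ∧ LocallyFinite v ∧
            ∀ i, ∃ k, v i ⊆ u k) →
      NormalSpace X) := by
  exact ⟨fun n hn X _ _ hc hloc hcp =>
      Pool.Agent.Work.MP_ba58b9_gt.metrizable_of_pfa hPFA n hn X hloc hc hcp,
    fun X _ _ hc ⟨n, hloc⟩ hcp =>
      Pool.Agent.Work.MP_ba58b9_gt.normal_of_pfa hPFA n X hloc hc hcp⟩

end Pool.Agent.Results.MP_ba58b9_gt.ProperForcingMetrizable
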